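import Pool.Agent.R596.PbMain

/-!
# A set with fewer finite partitions than finitary partitions

There is a countable transitive model of ZF that contains an infinite set `A` such that in the
model there is an injection of the set `S` of all partitions of `A` with finitely many blocks into
the set `B` of all partitions of `A` into finite blocks, but no injection of `B` into `S`. The
definitions are in `Pool.Agent.R596.PbDefs`.
-/

set_option autoImplicit false

namespace Pool.Agent.Results.MP_fe2f0d_lc.FinLtFinitary

open Pool.Agent.W868 Pool.Agent.R596Pb

theorem result : ∃ (M : Set ZFSet.{0}) (A S B : ZFSet.{0}), M.Countable ∧ IsZF M ∧ A ∈ M ∧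
    ¬ FinIn M A ∧ IsPartFin M A S ∧ IsFinitary M A B ∧ (∃ f ∈ M, IsInj S B f) ∧
    ¬ ∃ f ∈ M, IsInj B S f :=
  Pool.Agent.R596.PB.main

end Pool.Agent.Results.MP_fe2f0d_lc.FinLtFinitary
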